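import Mathlib
import Pool.Agent.D0H93.RP.Lead
import Pool.Agent.TH941.Newform

/-!
# The formula of Birch and Swinnerton-Dyer as an asymptotic formula for the number of rational points,
# without regulator and torsion

Let `E : y² = x³ + a x + b` be an elliptic curve over `ℚ`, `a, b ∈ ℤ`, of rank `r`. For `X > 1` let

* `R(X)` be the number of the points of `E(ℚ)` (with the point at infinity) such that numerator and
  denominator of `x` are at most `X` in absolute value,
* `Π(X)` the product of the `N_p / p` over the primes `p ∤ 2Δ` with the weights `K(log p / log X)`,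
  `K(u) = e^{icu} / Γ(1 + u)`, `c > π/2` fixed (an absolutely convergent product, the weight of every
  single prime tends to `1` for `X → ∞`), and `Π*(X)` the same product with the second order terms
  `(K(u) - K(2u)) (a_p² - 2p) / (2p²)` added to its logarithm.

Let `F` be the entire continuation of the `L`-series without the Euler factors at `p | 2Δ`, and
`m = ord_{s=1} F`. Let `V_r` be the volume of the unit ball of dimension `r` and
`Λ = ∫_0^∞ (e^{-t} - K(t)) dt/t`.

**1. A law for every curve.** Whatever `r`, `m` and the zeros of `F` are,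

  `R(X)² / Π*(X) · (log X)^{m - r} → V_r² e^{mΛ} (#E(ℚ)_tors² / Reg) F^{(m)}(1) / m!`.

**2. The formula of Birch and Swinnerton-Dyer.** For every complex number `M ≠ 0` the following are
equivalent: `m = r` and `F^{(r)}(1) / r! = M Reg / #E(ℚ)_tors²`; and

  `R(X)² / Π*(X) → V_r² e^{rΛ} M`.

For `M = Ω #Ш ∏ c_p ∏_{p | 2Δ} (#E_ns(F_p) / p)` the first statement is the conjecture (parts (i) and
(iii)) for `E`. So the conjecture is an asymptotic formula for the number of rational points of bounded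
height, in which neither the regulator nor the torsion group nor heights of generators occur: it says
that the square of the number of rational points of height at most `X` is asymptotically the order of
`Ш` times the product `Ω ∏ c_p Π(X)` of the local volumes of `E(ℝ)` and `E(ℚ_p)` (cut off at `X`), up to
a constant which depends only on `r` and `c`.

**3.** If `f` is the newform of `E`, then the second order terms tend to `- (log 2) / 2` (theorem of Rankin
and Selberg), and the same is true for `Π(X)` itself with the additional factor `1 / √2`.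

Proof. The number of rational points: theorem of Mordell, Weil and Néron (library `Pool.Agent.TH942`):
`R(X) ~ #E(ℚ)_tors V_r (log X)^{r/2} / √Reg`. The product: starting result `RotatedLeadingTerm` of
`MP_92892c_nt`. Rankin-Selberg: library `Pool.Agent.TH941`.
-/

set_option autoImplicit false

namespace Pool.Agent.Results.MP_4a9ea6_nt.PointCountsLeadingTerm

open Filter Topology Classical CongruenceSubgroup
open scoped MatrixGroups

/-! ### Rational points -/

/-- the curve `y² = x³ + a x + b` over `ℚ` -/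
def E (a b : ℤ) : WeierstrassCurve ℚ := { a₁ := 0, a₂ := 0, a₃ := 0, a₄ := (a : ℚ), a₆ := (b : ℚ) }

/-- `E(ℚ)` -/
abbrev Pt (a b : ℤ) : Type := (E a b).toAffine.Point

/-- `h(x(P))`: the logarithm of the maximum of `|numerator|` and `denominator` of the first coordinate,
and `0` for the point at infinity -/
noncomputable def height {a b : ℤ} : Pt a b → ℝ
  | .zero => 0
  | .some x _ _ => Real.log (max x.num.natAbs x.den : ℕ)

/-- `R(X)`: the number of the points of `E(ℚ)` with `h(x(P)) ≤ log X` -/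
noncomputable def R (a b : ℤ) (X : ℝ) : ℕ := Nat.card {P : Pt a b // height P ≤ Real.log X}

/-- the Néron-Tate height, `⟨P, P⟩ = lim 4 ^ (-k) h(x(2 ^ k P))` -/
noncomputable def hhat {a b : ℤ} (P : Pt a b) : ℝ :=
  limUnder atTop fun k : ℕ => height ((2 ^ k : ℕ) • P) / 4 ^ k

/-- the Néron-Tate pairing -/
noncomputable def pairing {a b : ℤ} (P Q : Pt a b) : ℝ := (hhat (P + Q) - hhat P - hhat Q) / 2

/-- the regulator of points `g_1, …, g_r` -/
noncomputable def Reg {a b : ℤ} {r : ℕ} (g : Fin r → Pt a b) : ℝ :=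
  (Matrix.of fun i j => pairing (g i) (g j)).det

/-- `g` is a basis of `E(ℚ)` modulo torsion -/
def IsBasis {a b : ℤ} {r : ℕ} (g : Fin r → Pt a b) : Prop :=
  ∀ P : Pt a b, ∃! n : Fin r → ℤ, IsOfFinAddOrder (P - ∑ i, n i • g i)

/-- `#E(ℚ)_tors` -/
noncomputable def tors (a b : ℤ) : ℕ := Nat.card {t : Pt a b // IsOfFinAddOrder t}

/-- `V_r = π^{r/2} / Γ(r/2 + 1)`, the volume of the unit ball of dimension `r` -/
noncomputable def V (r : ℕ) : ℝ := √Real.pi ^ r / Real.Gamma (r / 2 + 1)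

/-! ### Points modulo `p` -/

/-- `N_p`: the number of points of `y² = x³ + a x + b` modulo `p`, with the point at infinity. -/
noncomputable def numPoints (a b : ℤ) (p : ℕ) : ℕ :=
  Nat.card {q : ZMod p × ZMod p // q.2 ^ 2 = q.1 ^ 3 + (a : ZMod p) * q.1 + (b : ZMod p)} + 1

/-- `p` is a prime that does not divide `2 Δ`, where `Δ = -4 a³ - 27 b²`. -/
def Good (a b : ℤ) (p : ℕ) : Prop :=
  p.Prime ∧ ¬ ((p : ℤ) ∣ 2 * (-4 * a ^ 3 - 27 * b ^ 2))

/-- `F` is an entire function which for `Re s > 3/2` is the incomplete `L`-series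
`∏_{p ∤ 2Δ} (1 - a_p p^{-s} + p^{1-2s})⁻¹`, `a_p = p + 1 - N_p`, of `y² = x³ + a x + b`. -/
def IsLSeries (a b : ℤ) (F : ℂ → ℂ) : Prop :=
  Differentiable ℂ F ∧ ∀ s : ℂ, (3 : ℝ) / 2 < s.re →
    HasProd (fun p : ℕ => if Good a b p then
      (1 - ((p : ℂ) + 1 - (numPoints a b p : ℂ)) * (p : ℂ) ^ (-s) + (p : ℂ) ^ (1 - 2 * s))⁻¹ else 1)
      (F s)

/-- the kernel `K(u) = e^{icu} / Γ(1 + u)` -/
noncomputable def K (c u : ℝ) : ℂ :=
  Complex.exp ((c * u : ℝ) * Complex.I) * (((Real.Gamma (1 + u))⁻¹ : ℝ) : ℂ)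

/-- `Λ = ∫_0^∞ (e^{-t} - K(t)) dt/t` -/
noncomputable def Lam (c : ℝ) : ℂ :=
  ∫ t in Set.Ioi (0 : ℝ), (Complex.exp (-(t : ℂ)) - K c t) / t

/-- `K(u) log (N_p / p)`, `u = log p / log X` -/
noncomputable def term (a b : ℤ) (c X : ℝ) (p : ℕ) : ℂ :=
  if Good a b p then
    K c (Real.log p / Real.log X) * (Real.log ((numPoints a b p : ℝ) / p) : ℝ) else 0

/-- `(K(u) - K(2u)) (a_p² - 2p) / (2p²)`, `u = log p / log X`, `a_p = p + 1 - N_p` -/
noncomputable def term2 (a b : ℤ) (c X : ℝ) (p : ℕ) : ℂ :=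
  if Good a b p then
    (K c (Real.log p / Real.log X) - K c (2 * (Real.log p / Real.log X))) *
      (((((p : ℝ) + 1 - numPoints a b p) ^ 2 - 2 * p) / (2 * (p : ℝ) ^ 2) : ℝ) : ℂ) else 0

/-- `Π(X)`: the rotated product of the `N_p / p` -/
noncomputable def Prod (a b : ℤ) (c X : ℝ) : ℂ := Complex.exp (∑' p : ℕ, term a b c X p)

/-- `Π*(X)`: the same with the second order terms -/
noncomputable def ProdStar (a b : ℤ) (c X : ℝ) : ℂ :=
  Complex.exp (∑' p : ℕ, (term a b c X p + term2 a b c X p))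

/-- The `n`-th Fourier coefficient of `f`. -/
noncomputable def coef {N : ℕ} (f : CuspForm (Gamma0 N : Subgroup (GL (Fin 2) ℝ)) 2) (n : ℕ) : ℂ :=
  (UpperHalfPlane.qExpansion 1 f).coeff n

/-- `f ∈ S_2(Γ₀(N))` is the newform of the elliptic curve `E : y² = x³ + a x + b` of conductor `N`: the
Fourier coefficients `c(n)` of `f` are real with `c(1) = 1`, they satisfy the Hecke relations
`c(mn) = c(m) c(n)` for coprime `m`, `n` and `c(p^(j+2)) = c(p) c(p^(j+1)) - p c(p^j)` (without the last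
term if `p ∣ N`), `c(p) = a_p = p + 1 - N_p` for all primes `p ∤ 2Δ`, `|c(p)| ≤ 2 √p` for all
`p ∤ N` (Hasse) and `c(p) = 0, 1, -1` for `p ∣ N`. -/
structure IsNewformOf (a b : ℤ) (N : ℕ) (f : CuspForm (Gamma0 N : Subgroup (GL (Fin 2) ℝ)) 2) :
    Prop where
  one : coef f 1 = 1
  real : ∀ n, (coef f n).im = 0
  mul : ∀ m n : ℕ, Nat.Coprime m n → coef f (m * n) = coef f m * coef f n
  pow : ∀ p j : ℕ, p.Prime → coef f (p ^ (j + 2)) = coef f p * coef f (p ^ (j + 1)) -
      (if p ∣ N then 0 else (p : ℂ) * coef f (p ^ j))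
  points : ∀ p : ℕ, Good a b p → coef f p = (p : ℂ) + 1 - (numPoints a b p : ℂ)
  good : ∀ p : ℕ, p.Prime → ¬ p ∣ N → ‖coef f p‖ ≤ 2 * Real.sqrt p
  bad : ∀ p : ℕ, p.Prime → p ∣ N → coef f p = 0 ∨ coef f p = 1 ∨ coef f p = -1

/-! ### Translation to the definitions of the library -/

variable {a b : ℤ}

theorem numPoints_sub (p : ℕ) : (p : ℂ) + 1 - (numPoints a b p : ℂ) =
    (p : ℂ) - (Pool.Agent.W263.BSD.pointCount a b p : ℂ) := by
  unfold numPoints Pool.Agent.W263.BSD.pointCount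
  push_cast
  ring

theorem isLSeries {F : ℂ → ℂ} (hF : IsLSeries a b F) :
    Pool.Agent.W263.BSD.IsLSeries a b F := by
  refine ⟨hF.1, fun s hs => ?_⟩
  have h := hF.2 s hs
  simp only [numPoints_sub] at h
  exact h

theorem hecke {N : ℕ} {f : CuspForm (Gamma0 N : Subgroup (GL (Fin 2) ℝ)) 2}
    (hf : IsNewformOf a b N f) : Pool.Agent.TH941.Hecke f where
  one := hf.one
  real := hf.real
  mul := hf.mul
  pow := hf.pow
  good := hf.good
  bad := fun p hp h => by
    rcases hf.bad p hp h with h1 | h1 | h1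
    · have h2 : ‖coef f p‖ ≤ 1 := by rw [h1]; simp
      exact h2
    · have h2 : ‖coef f p‖ ≤ 1 := by rw [h1]; simp
      exact h2
    · have h2 : ‖coef f p‖ ≤ 1 := by rw [h1]; simp
      exact h2

theorem height_eq (P : Pt a b) :
    height P = Pool.Agent.TH942.sht (P : Pool.Agent.TH942.SPt (a : ℚ) (b : ℚ)) := by
  cases P with
  | zero => exact Pool.Agent.TH942.sht_zero.symm
  | some x y h => exact (Pool.Agent.TH942.sht_some h).symm

theorem hhat_eq : (hhat : Pt a b → ℝ) =
    (Pool.Agent.D0H93.RP.hhat : Pool.Agent.TH942.SPt (a : ℚ) (b : ℚ) → ℝ) := by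
  funext P
  unfold hhat Pool.Agent.D0H93.RP.hhat
  simp only [height_eq]
  rfl

theorem reg_eq {r : ℕ} (g : Fin r → Pt a b) :
    Reg g = Pool.Agent.D0H93.RP.reg (g : Fin r → Pool.Agent.TH942.SPt (a : ℚ) (b : ℚ)) := by
  unfold Reg Pool.Agent.D0H93.RP.reg Pool.Agent.TH942.gram pairing
  rw [hhat_eq]
  rfl

theorem R_eq (hab : 4 * a ^ 3 + 27 * b ^ 2 ≠ 0) {X : ℝ} (hX : 1 ≤ X) :
    (R a b X : ℝ) = Pool.Agent.D0H93.RP.rc a b X := by
  have hD : 4 * (a : ℚ) ^ 3 + 27 * (b : ℚ) ^ 2 ≠ 0 := by exact_mod_cast hab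
  rw [Pool.Agent.D0H93.RP.rc_eq, Pool.Agent.TH942.ratCount_eq hD hX]
  unfold R
  simp only [height_eq]
  rfl

theorem K_eq (c u : ℝ) : K c u = Pool.Agent.W187.S2.kk c u := rfl

theorem Lam_eq (c : ℝ) : Lam c = Pool.Agent.W187.UR.Lam c := rfl

theorem term_eq (c X : ℝ) (p : ℕ) : term a b c X p = Pool.Agent.W187.S2.pterm a b c X p := by
  have e : (numPoints a b p : ℝ) = (Pool.Agent.W263.BSD.pointCount a b p : ℝ) + 1 := by
    unfold numPoints Pool.Agent.W263.BSD.pointCount
    push_cast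
    rfl
  unfold term Pool.Agent.W187.S2.pterm
  rw [e]
  rfl

theorem term2_eq (c X : ℝ) (p : ℕ) : term2 a b c X p = Pool.Agent.W187.S2.cterm a b c X p := by
  have e : (p : ℝ) + 1 - (numPoints a b p : ℝ) =
      (p : ℝ) - (Pool.Agent.W263.BSD.pointCount a b p : ℝ) := by
    unfold numPoints Pool.Agent.W263.BSD.pointCount
    push_cast
    ring
  unfold term2 Pool.Agent.W187.S2.cterm
  rw [e]
  rfl

theorem Prod_eq (c X : ℝ) : Prod a b c X = Complex.exp (Pool.Agent.W187.S2.pSum a b c X) := by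
  unfold Prod Pool.Agent.W187.S2.pSum
  simp only [term_eq]

theorem ProdStar_eq (c X : ℝ) :
    ProdStar a b c X = Complex.exp (Pool.Agent.W187.S2.pStar a b c X) := by
  unfold ProdStar Pool.Agent.W187.S2.pStar
  simp only [term_eq, term2_eq]

/-- **The number of rational points, the product of the `N_p / p` and the leading coefficient.** -/
theorem result (a b : ℤ) (hΔ : 4 * a ^ 3 + 27 * b ^ 2 ≠ 0) (F : ℂ → ℂ) (hF : IsLSeries a b F) :
    -- there is a basis modulo torsion, the limit in the definition of the height exists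
    (∃ (r : ℕ) (g : Fin r → Pt a b), IsBasis g) ∧
    (∀ P : Pt a b, Tendsto (fun k : ℕ => height ((2 ^ k : ℕ) • P) / 4 ^ k) atTop (𝓝 (hhat P))) ∧
    ∃ m : ℕ, analyticOrderAt F 1 = m ∧ iteratedDeriv m F 1 ≠ 0 ∧
      ∀ (r : ℕ) (g : Fin r → Pt a b), IsBasis g → 0 < Reg g ∧ ∀ c : ℝ, Real.pi / 2 < c →
        -- the law for every curve
        Tendsto (fun X : ℝ => (R a b X : ℂ) ^ 2 / ProdStar a b c X * (Real.log X : ℂ) ^ m /
          (Real.log X : ℂ) ^ r) atTop (𝓝 ((V r : ℂ) ^ 2 * Complex.exp (m * Lam c) *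
            ((tors a b : ℂ) ^ 2 / Reg g) * (iteratedDeriv m F 1 / m.factorial))) ∧
        -- the formula of Birch and Swinnerton-Dyer
        (∀ M : ℂ, M ≠ 0 →
          ((analyticOrderAt F 1 = r ∧
              iteratedDeriv r F 1 / r.factorial = M * Reg g / (tors a b : ℂ) ^ 2) ↔
            Tendsto (fun X : ℝ => (R a b X : ℂ) ^ 2 / ProdStar a b c X) atTop
              (𝓝 ((V r : ℂ) ^ 2 * Complex.exp (r * Lam c) * M)))) ∧
        -- the same with the product of the `N_p / p` itself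
        ∀ (N : ℕ) [NeZero N] (f : CuspForm (Gamma0 N : Subgroup (GL (Fin 2) ℝ)) 2),
          IsNewformOf a b N f → ∀ M : ℂ, M ≠ 0 →
            ((analyticOrderAt F 1 = r ∧
                iteratedDeriv r F 1 / r.factorial = M * Reg g / (tors a b : ℂ) ^ 2) ↔
              Tendsto (fun X : ℝ => (R a b X : ℂ) ^ 2 / Prod a b c X) atTop
                (𝓝 ((V r : ℂ) ^ 2 * Complex.exp (r * Lam c) * M / √2))) := by
  have hD : 4 * (a : ℚ) ^ 3 + 27 * (b : ℚ) ^ 2 ≠ 0 := by exact_mod_cast hΔ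
  have hF' := isLSeries hF
  obtain ⟨-, m, hm, hne, hlaw⟩ :=
    Pool.Agent.Results.MP_92892c_nt.RotatedLeadingTerm.result a b hΔ F hF'
  refine ⟨Pool.Agent.TH942.exists_basis (Pool.Agent.TH942.sfg hD), ?_, m, hm, hne, ?_⟩
  · intro P
    obtain ⟨r, g, hg⟩ := Pool.Agent.TH942.exists_basis (Pool.Agent.TH942.sfg hD)
    have h := (Pool.Agent.D0H93.RP.neron_rat hΔ hg).2.1 P
    rw [hhat_eq]
    simp only [height_eq]
    exact h
  intro r g hg
  obtain ⟨h1, -, h2⟩ := Pool.Agent.D0H93.RP.neron_rat hΔ hg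
  have hreg : 0 < Reg g := by
    rw [reg_eq]
    exact h1
  rw [← reg_eq] at h2
  have htors : (tors a b : ℝ) = Pool.Agent.D0H93.RP.tors (a : ℚ) (b : ℚ) := rfl
  have hV : V r = Pool.Agent.TH942.ballVol r := rfl
  rw [← htors, ← hV] at h2
  refine ⟨hreg, fun c hc => ?_⟩
  obtain ⟨hO, hRS, hall⟩ := hlaw c hc
  have hf0 : (m.factorial : ℂ) ≠ 0 := by exact_mod_cast m.factorial_ne_zero
  have hfr0 : (r.factorial : ℂ) ≠ 0 := by exact_mod_cast r.factorial_ne_zero
  have hregc : (Reg g : ℂ) ≠ 0 := by exact_mod_cast hreg.ne'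
  have hVc : (V r : ℂ) ≠ 0 := by
    have := Pool.Agent.TH942.ballVol_pos r
    rw [← hV] at this
    exact_mod_cast this.ne'
  have htc : (tors a b : ℂ) ≠ 0 := by
    have h3 : 0 < tors a b := Pool.Agent.D0H93.RP.tors_pos hΔ
    exact_mod_cast h3.ne'
  have hLam : ∀ n : ℕ, Complex.exp (-((n : ℂ) * Pool.Agent.W187.UR.Lam c)) =
      (Complex.exp (n * Lam c))⁻¹ := by
    intro n
    rw [Lam_eq, Complex.exp_neg]
  have hRt : ∀ᶠ X : ℝ in atTop, (((Pool.Agent.D0H93.RP.rc a b X) ^ 2 : ℝ) : ℂ) =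
      (R a b X : ℂ) ^ 2 := by
    filter_upwards [eventually_ge_atTop 1] with X hX
    rw [← R_eq hΔ hX]
    push_cast
    rfl
  set κ : ℂ := Complex.exp (-((m : ℂ) * Pool.Agent.W187.UR.Lam c)) *
    (m.factorial / iteratedDeriv m F 1) with hκ
  have hκ0 : κ ≠ 0 := mul_ne_zero (Complex.exp_ne_zero _) (div_ne_zero hf0 hne)
  have hA : Tendsto (fun X : ℝ => ProdStar a b c X / (Real.log X : ℂ) ^ m) atTop (𝓝 κ) := by
    have hz : Tendsto (fun X : ℝ => 1 / Real.log X) atTop (𝓝 0) := by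
      refine Real.tendsto_log_atTop.inv_tendsto_atTop.congr fun X => ?_
      rw [Pi.inv_apply, one_div]
    have h3 := hO.trans_tendsto hz
    have h4 : Tendsto (fun X : ℝ => Complex.exp (Pool.Agent.W187.S2.pStar a b c X) /
        (Real.log X : ℂ) ^ m) atTop (𝓝 (0 + κ)) := by
      have := h3.add_const κ
      refine this.congr fun X => ?_
      ring
    rw [zero_add] at h4
    refine h4.congr fun X => ?_
    rw [ProdStar_eq]
  -- the law for a general product
  have key : ∀ (E : ℝ → ℂ) (ε : ℂ), ε ≠ 0 →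
      Tendsto (fun X : ℝ => E X / (Real.log X : ℂ) ^ m) atTop (𝓝 (ε * κ)) →
      Tendsto (fun X : ℝ => (R a b X : ℂ) ^ 2 / E X * (Real.log X : ℂ) ^ m /
          (Real.log X : ℂ) ^ r) atTop (𝓝 ((V r : ℂ) ^ 2 * Complex.exp (m * Lam c) *
            ((tors a b : ℂ) ^ 2 / Reg g) * (iteratedDeriv m F 1 / m.factorial) / ε)) ∧
      ∀ M : ℂ, M ≠ 0 → ((analyticOrderAt F 1 = r ∧
              iteratedDeriv r F 1 / r.factorial = M * Reg g / (tors a b : ℂ) ^ 2) ↔
            Tendsto (fun X : ℝ => (R a b X : ℂ) ^ 2 / E X) atTop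
              (𝓝 ((V r : ℂ) ^ 2 * Complex.exp (r * Lam c) * M / ε))) := by
    intro E ε hε hE
    have h3 := Pool.Agent.D0H93.RP.quot_lim (mul_ne_zero hε hκ0) h2 hE
    have hval : (((tors a b : ℝ) ^ 2 * V r ^ 2 / Reg g : ℝ) : ℂ) / (ε * κ) =
        (V r : ℂ) ^ 2 * Complex.exp (m * Lam c) *
            ((tors a b : ℂ) ^ 2 / Reg g) * (iteratedDeriv m F 1 / m.factorial) / ε := by
      rw [hκ, hLam]
      have := Complex.exp_ne_zero (m * Lam c)
      push_cast
      field_simp
    rw [hval] at h3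
    have h4 : Tendsto (fun X : ℝ => (R a b X : ℂ) ^ 2 / E X * (Real.log X : ℂ) ^ m /
          (Real.log X : ℂ) ^ r) atTop (𝓝 ((V r : ℂ) ^ 2 * Complex.exp (m * Lam c) *
            ((tors a b : ℂ) ^ 2 / Reg g) * (iteratedDeriv m F 1 / m.factorial) / ε)) := by
      refine h3.congr' ?_
      filter_upwards [hRt] with X hX
      rw [hX]
    refine ⟨h4, fun M hM => ⟨?_, fun h5 => ?_⟩⟩
    · rintro ⟨k1, k2⟩
      rw [hm] at k1
      have k3 : m = r := by exact_mod_cast k1
      subst k3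
      rw [k2] at h4
      have k4 : (V m : ℂ) ^ 2 * Complex.exp (m * Lam c) * ((tors a b : ℂ) ^ 2 / Reg g) *
          (M * Reg g / (tors a b : ℂ) ^ 2) / ε =
          (V m : ℂ) ^ 2 * Complex.exp (m * Lam c) * M / ε := by
        field_simp
      rw [k4] at h4
      refine h4.congr' ?_
      filter_upwards [eventually_ge_atTop 3] with X hX
      have hl := Pool.Agent.D0H93.RP.one_lt_log hX
      have : (Real.log X : ℂ) ≠ 0 := by
        exact_mod_cast (by linarith : (0 : ℝ) < Real.log X).ne'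
      field_simp
    · have k1 : (V r : ℂ) ^ 2 * Complex.exp (m * Lam c) *
            ((tors a b : ℂ) ^ 2 / Reg g) * (iteratedDeriv m F 1 / m.factorial) / ε ≠ 0 := by
        have := Complex.exp_ne_zero (m * Lam c)
        have h6 : iteratedDeriv m F 1 / m.factorial ≠ 0 := div_ne_zero hne hf0
        positivity
      have k2 : (V r : ℂ) ^ 2 * Complex.exp (r * Lam c) * M / ε ≠ 0 := by
        have := Complex.exp_ne_zero (r * Lam c)
        positivity
      obtain ⟨k3, k4⟩ := Pool.Agent.D0H93.RP.pow_unique' k1 k2 h4 h5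
      subst k3
      refine ⟨hm, ?_⟩
      have hexp := Complex.exp_ne_zero (m * Lam c)
      have k5 : (tors a b : ℂ) ^ 2 / Reg g * (iteratedDeriv m F 1 / m.factorial) = M := by
        have h7 : (V m : ℂ) ^ 2 * Complex.exp (m * Lam c) ≠ 0 :=
          mul_ne_zero (pow_ne_zero _ hVc) hexp
        have h8 : (V m : ℂ) ^ 2 * Complex.exp (m * Lam c) *
            ((tors a b : ℂ) ^ 2 / Reg g * (iteratedDeriv m F 1 / m.factorial)) =
            (V m : ℂ) ^ 2 * Complex.exp (m * Lam c) * M := by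
          have := (div_left_inj' hε).1 k4
          rw [← this]
          ring
        exact mul_left_cancel₀ h7 h8
      rw [← k5]
      field_simp
  have hs2 : ((√2 : ℝ) : ℂ) ≠ 0 := by
    have : (0 : ℝ) < √2 := by positivity
    exact_mod_cast this.ne'
  obtain ⟨key1, key2⟩ := key (fun X => ProdStar a b c X) 1 one_ne_zero (by rwa [one_mul])
  simp only [div_one] at key1 key2
  refine ⟨key1, key2, ?_⟩
  intro N _ f hf M hM
  have hrs : Tendsto (Pool.Agent.W263.BSD.rsSum a b) atTop (𝓝 0) :=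
    (hecke hf).rsSum_tendsto hΔ fun p hp => (hf.points p hp).trans (numPoints_sub p)
  have hB : Tendsto (fun X : ℝ => Prod a b c X / (Real.log X : ℂ) ^ m) atTop
      (𝓝 (((√2 : ℝ) : ℂ) * κ)) := by
    refine (hRS hrs).congr fun X => ?_
    rw [Prod_eq]
  exact (key (fun X => Prod a b c X) _ hs2 hB).2 M hM

end Pool.Agent.Results.MP_4a9ea6_nt.PointCountsLeadingTerm
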