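import Mathlib
import Pool.Agent.D0H93.RP.NF

/-!
# The rank conjecture over every number field as a comparison of the number of points of bounded height
# with the Euler product

Let `K` be a number field and `E : y² = x³ + a x + b` an elliptic curve over `K` (every elliptic curve over
`K` is of this form). For `T > 0` let

* `R(T)` be the number of the points `P` of `E(K)` with `h(x(P)) ≤ T`, where `h` is the logarithmic height
  of `x(P)` relative to `K`,
* `E(T) = exp S(T)` be the Euler product at `s = 1` of `L(E, s)⁻¹`, over ALL the primes of `K`, with the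
  terms of its logarithm weighted by `cos (c u) / Γ(1 + u)`, `u = n log q_v / T` for the `n`-th power of
  the prime `v` of norm `q_v`, where `c > π/2` is fixed: an absolutely convergent series for every
  `T > 0`; the weight of every single prime tends to `1` for `T → ∞`.

Suppose that `L(E, s)` has a continuation `F` along the real segment from `2` to `1`, meromorphic at the
points of the segment (the part of the conjecture that says that its assertion has a sense). Let
`m = ord_{s=1} F` (an integer, a priori it may be negative), `l` the leading coefficient of `F` at `1` (a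
real number), `r` the rank of `E(K)`. Then, whatever `r`, `m` and the zeros and poles of `F` are:

**1.** `R(T)² / E(T) · T^{m - r} → V_r² e^{mΛ} (#E(K)_tors² / Reg) |l|` for `T → ∞`. Here `V_r` is the
volume of the unit ball of dimension `r`, `Reg` is the regulator for the canonical height
`ĥ(P) = lim 4^{-k} h(x(2^k P))`, and `Λ` depends only on `c`.

**2.** `r = m` iff `R(T)²` and `E(T)` have the same order of magnitude for `T → ∞`; `r ≤ m` iff
`R(T)² = O(E(T))`; `m ≤ r` iff `E(T) = O(R(T)²)`. In all three cases the estimates are needed only for some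
arbitrarily large `T` and a factor `T^δ`, `δ < 1`, may be lost.

**3.** For every `M > 0`: `r = m` and `|l| = M Reg / #E(K)_tors²` iff `R(T)² / E(T) → V_r² e^{rΛ} M`.

Only the continuation along the segment is assumed, which is a part of the assertion of the conjecture
for `E` over `K`: no continuation to other points with `Re s ≤ 3/2`, no functional equation and no
hypothesis on the zeros (with the sharp cut-off of the Euler product the corresponding statements imply
the Riemann hypothesis for `L(E, s)`).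

Proof. Mordell, Weil and Néron over `K` (library `Pool.Agent.TH942`), and the rotated law for the
`L`-functions over number fields (library `Pool.Agent.W187`).
-/

set_option autoImplicit false

namespace Pool.Agent.Results.MP_ae0bd0_nt.PointCountsOverNumberFields

open Filter Topology NumberField IsDedekindDomain
open scoped Classical

variable {K : Type} [Field K] [NumberField K]

/-! ### Points of bounded height -/

/-- the curve `y² = x³ + a x + b` over `K` -/
def curve (a b : K) : WeierstrassCurve K := { a₁ := 0, a₂ := 0, a₃ := 0, a₄ := a, a₆ := b }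

/-- `E(K)` -/
abbrev Pt (a b : K) : Type := (curve a b).toAffine.Point

/-- `h(x(P))`: the logarithmic height, relative to `K`, of `(x(P) : 1)` and of `(1 : 0)` for the point
at infinity -/
noncomputable def height {a b : K} (P : Pt a b) : ℝ := Height.logHeight P.xRep

/-- `R(T)`: the number of the points of `E(K)` with `h(x(P)) ≤ T` -/
noncomputable def R (a b : K) (T : ℝ) : ℕ := Nat.card {P : Pt a b // height P ≤ T}

/-- the Néron-Tate height, `⟨P, P⟩ = lim 4 ^ (-k) h(x(2 ^ k P))` -/
noncomputable def hhat {a b : K} (P : Pt a b) : ℝ :=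
  limUnder atTop fun k : ℕ => height ((2 ^ k : ℕ) • P) / 4 ^ k

/-- the Néron-Tate pairing -/
noncomputable def pairing {a b : K} (P Q : Pt a b) : ℝ := (hhat (P + Q) - hhat P - hhat Q) / 2

/-- the regulator of points `g_1, …, g_r` -/
noncomputable def Reg {a b : K} {r : ℕ} (g : Fin r → Pt a b) : ℝ :=
  (Matrix.of fun i j => pairing (g i) (g j)).det

/-- `g` is a basis of `E(K)` modulo torsion -/
def IsBasis {a b : K} {r : ℕ} (g : Fin r → Pt a b) : Prop :=
  ∀ P : Pt a b, ∃! n : Fin r → ℤ, IsOfFinAddOrder (P - ∑ i, n i • g i)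

/-- `#E(K)_tors` -/
noncomputable def tors (a b : K) : ℕ := Nat.card {t : Pt a b // IsOfFinAddOrder t}

/-- `V_r = π^{r/2} / Γ(r/2 + 1)`, the volume of the unit ball of dimension `r` -/
noncomputable def V (r : ℕ) : ℝ := √Real.pi ^ r / Real.Gamma (r / 2 + 1)

/-! ### The Euler product -/

/-- the local polynomial `L_v = 1 - a_v X + e_v X²` of Mathlib: `a_v = q_v + 1 - #Ẽ(k_v)`, `e_v = q_v` if
the reduction of a minimal model at `v` is good, `1 - X`, `1 + X`, `1` if it is split multiplicative,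
non-split multiplicative, additive -/
noncomputable def locPoly (a b : K) (v : HeightOneSpectrum (𝓞 K)) : Polynomial ℤ :=
  ((curve a b).baseChange (v.adicCompletion K)).localPolynomial (v.adicCompletionIntegers K)

/-- `α ^ n + β ^ n` for a polynomial `1 - a X + e X² = (1 - α X) (1 - β X)` -/
noncomputable def powerSum (P : Polynomial ℤ) : ℕ → ℤ
  | 0 => 2
  | 1 => -P.coeff 1
  | (n + 2) => -P.coeff 1 * powerSum P (n + 1) - P.coeff 2 * powerSum P n

/-- the term `- cos (c u) / Γ(1 + u) * (α_v ^ n + β_v ^ n) / (n q_v ^ n)` of `S(T)`, `n = x.2 + 1`,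
`v = x.1`, `u = n log q_v / T` -/
noncomputable def term (a b : K) (c T : ℝ) (x : HeightOneSpectrum (𝓞 K) × ℕ) : ℝ :=
  -(Real.cos (c * ((x.2 + 1) * Real.log (Ideal.absNorm x.1.asIdeal) / T)) /
      Real.Gamma (1 + (x.2 + 1) * Real.log (Ideal.absNorm x.1.asIdeal) / T) *
    (powerSum (locPoly a b x.1) (x.2 + 1) /
      ((x.2 + 1) * (Ideal.absNorm x.1.asIdeal : ℝ) ^ (x.2 + 1))))

/-- `S(T)` -/
noncomputable def S (a b : K) (c T : ℝ) : ℝ := ∑' x : HeightOneSpectrum (𝓞 K) × ℕ, term a b c T x

/-- `E(T) = exp S(T)`: the Euler product of `L(E, s)⁻¹` at `s = 1` with the weights -/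
noncomputable def Prod (a b : K) (c T : ℝ) : ℝ := Real.exp (S a b c T)

/-- `Λ`, the real part of `∫_0^∞ (e^{-t} - e^{ict} / Γ(1 + t)) dt/t` -/
noncomputable def Lam (c : ℝ) : ℝ :=
  (∫ t in Set.Ioi (0 : ℝ), (Complex.exp (-(t : ℂ)) -
    Complex.exp ((c * t : ℝ) * Complex.I) * ((Real.Gamma (1 + t))⁻¹ : ℝ)) / t).re

/-- `F` is a continuation of `L(E, s)` (Mathlib's `LSeries` of the curve) from `Re s > 2` along the real
axis to `s = 1` which is meromorphic at every point of the segment `[1, 2]` -/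
def IsContinuation (a b : K) (F : ℂ → ℂ) : Prop :=
  (∀ x : ℝ, 1 ≤ x → x ≤ 2 → MeromorphicAt F (x : ℂ)) ∧
    ∀ s : ℂ, 2 < s.re → F s = (curve a b).LSeries s

/-! ### Translation to the definitions of the library -/

theorem locPoly_eq (a b : K) (v : HeightOneSpectrum (𝓞 K)) : locPoly a b v =
    1 - Polynomial.C (Pool.Agent.W189.NF.aV (curve a b) v) * Polynomial.X +
      Polynomial.C (Pool.Agent.W189.NF.eV (curve a b) v) * Polynomial.X ^ 2 :=
  Pool.Agent.W189.NF.localPolynomial_eq _ _

theorem powerSum_eq (a b : K) (v : HeightOneSpectrum (𝓞 K)) (n : ℕ) :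
    powerSum (locPoly a b v) n = Pool.Agent.W189.LC.psum
      (Pool.Agent.W189.NF.aV (curve a b) v) (Pool.Agent.W189.NF.eV (curve a b) v) n := by
  have h1 : (locPoly a b v).coeff 1 = - Pool.Agent.W189.NF.aV (curve a b) v := by
    rw [locPoly_eq, Polynomial.coeff_add, Polynomial.coeff_sub, Polynomial.coeff_one,
      Polynomial.coeff_C_mul, Polynomial.coeff_C_mul, Polynomial.coeff_X_one,
      Polynomial.coeff_X_pow]
    simp
  have h2 : (locPoly a b v).coeff 2 = Pool.Agent.W189.NF.eV (curve a b) v := by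
    rw [locPoly_eq, Polynomial.coeff_add, Polynomial.coeff_sub, Polynomial.coeff_one,
      Polynomial.coeff_C_mul, Polynomial.coeff_C_mul, Polynomial.coeff_X, Polynomial.coeff_X_pow]
    simp
  induction n using Nat.twoStepInduction with
  | zero => rfl
  | one =>
    simp only [powerSum, Pool.Agent.W189.LC.psum]
    rw [h1, neg_neg]
  | more n ih1 ih2 =>
    simp only [powerSum, Pool.Agent.W189.LC.psum]
    rw [h1, h2, neg_neg, ih1, ih2]

theorem term_eq (a b : K) (c T : ℝ) (x : HeightOneSpectrum (𝓞 K) × ℕ) :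
    term a b c T x = (Pool.Agent.W187.UR.rTerm (curve a b) c T x).re := by
  unfold term Pool.Agent.W187.UR.rTerm Pool.Agent.W189.NF.bsTerm
  rw [Complex.re_ofReal_mul, Complex.exp_ofReal_mul_I_re, powerSum_eq]
  simp only [div_eq_mul_inv, mul_inv]
  ring

theorem summable_abs (a b : K) (c : ℝ) {T : ℝ} (hT : 0 < T) :
    Summable fun x : HeightOneSpectrum (𝓞 K) × ℕ => |term a b c T x| := by
  refine Summable.of_nonneg_of_le (fun x => abs_nonneg _) (fun x => ?_)
    (Pool.Agent.W189.NF.bsTerm_summable (curve a b) hT)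
  rw [term_eq, ← Pool.Agent.W187.UR.norm_rTerm (curve a b) c T x]
  exact Complex.abs_re_le_norm _

theorem S_eq (a b : K) (c : ℝ) {T : ℝ} (hT : 0 < T) :
    S a b c T = (Pool.Agent.W187.UR.rSum (curve a b) c T).re := by
  unfold S Pool.Agent.W187.UR.rSum
  have h1 : Summable fun x => Pool.Agent.W187.UR.rTerm (curve a b) c T x := by
    refine Summable.of_norm ?_
    refine (Pool.Agent.W189.NF.bsTerm_summable (curve a b) hT).congr fun x => ?_
    rw [Pool.Agent.W187.UR.norm_rTerm]
  rw [Complex.re_tsum h1]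
  exact tsum_congr fun x => term_eq a b c T x

theorem R_eq (a b : K) : R a b = Pool.Agent.D0H93.RP.NF.R a b := rfl

theorem Reg_eq {a b : K} {r : ℕ} (g : Fin r → Pt a b) :
    Reg g = Pool.Agent.D0H93.RP.NF.reg (g : Fin r → Pool.Agent.TH942.SPt a b) := rfl

/-- **Points of bounded height, the Euler product and the order of vanishing over number fields.** -/
theorem result {K : Type} [Field K] [NumberField K] (a b : K) (hΔ : 4 * a ^ 3 + 27 * b ^ 2 ≠ 0)
    (F : ℂ → ℂ) (hF : IsContinuation a b F) :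
    -- there is a basis modulo torsion, the limit in the definition of the height exists, the series
    -- `S(T)` converges absolutely
    (∃ (r : ℕ) (g : Fin r → Pt a b), IsBasis g) ∧
    (∀ P : Pt a b, Tendsto (fun k : ℕ => height ((2 ^ k : ℕ) • P) / 4 ^ k) atTop (𝓝 (hhat P))) ∧
    (∀ c T : ℝ, 0 < T → Summable fun x : HeightOneSpectrum (𝓞 K) × ℕ => |term a b c T x|) ∧
    ∃ (m : ℤ) (l : ℝ), meromorphicOrderAt F 1 = m ∧ meromorphicTrailingCoeffAt F 1 = l ∧ l ≠ 0 ∧
      ∀ (r : ℕ) (g : Fin r → Pt a b), IsBasis g → Module.finrank ℤ (Pt a b) = r ∧ 0 < Reg g ∧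
        ∀ c : ℝ, Real.pi / 2 < c →
          -- the law for every curve
          Tendsto (fun T : ℝ => (R a b T : ℝ) ^ 2 / Prod a b c T * T ^ (m - r)) atTop
            (𝓝 (V r ^ 2 * Real.exp (m * Lam c) * ((tors a b : ℝ) ^ 2 / Reg g) * |l|)) ∧
          -- the rank conjecture
          List.TFAE [m = r,
            ∃ B : ℝ, ∀ᶠ T : ℝ in atTop, (R a b T : ℝ) ^ 2 ≤ B * Prod a b c T ∧
              Prod a b c T ≤ B * (R a b T : ℝ) ^ 2,
            ∃ δ : ℝ, δ < 1 ∧ ∃ᶠ T : ℝ in atTop, (R a b T : ℝ) ^ 2 ≤ Prod a b c T * T ^ δ ∧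
              Prod a b c T ≤ (R a b T : ℝ) ^ 2 * T ^ δ] ∧
          -- the upper bound for the rank
          List.TFAE [r ≤ m,
            ∃ B : ℝ, ∀ᶠ T : ℝ in atTop, (R a b T : ℝ) ^ 2 ≤ B * Prod a b c T,
            ∃ δ : ℝ, δ < 1 ∧ ∃ᶠ T : ℝ in atTop, (R a b T : ℝ) ^ 2 ≤ Prod a b c T * T ^ δ] ∧
          -- the lower bound for the rank
          List.TFAE [m ≤ r,
            ∃ B : ℝ, ∀ᶠ T : ℝ in atTop, Prod a b c T ≤ B * (R a b T : ℝ) ^ 2,
            ∃ δ : ℝ, δ < 1 ∧ ∃ᶠ T : ℝ in atTop, Prod a b c T ≤ (R a b T : ℝ) ^ 2 * T ^ δ] ∧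
          -- the leading coefficient
          ∀ M : ℝ, 0 < M → ((m = r ∧ |l| = M * Reg g / (tors a b : ℝ) ^ 2) ↔
            Tendsto (fun T : ℝ => (R a b T : ℝ) ^ 2 / Prod a b c T) atTop
              (𝓝 (V r ^ 2 * Real.exp (r * Lam c) * M))) := by
  refine ⟨Pool.Agent.TH942.exists_basis (Pool.Agent.TH942.sfg hΔ), ?_,
    fun c T hT => summable_abs a b c hT, ?_⟩
  · intro P
    obtain ⟨r, g, hg⟩ := Pool.Agent.TH942.exists_basis (Pool.Agent.TH942.sfg hΔ)
    exact (Pool.Agent.D0H93.RP.NF.neron_nf hΔ hg).2.1 P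
  have hc2 : Real.pi / 2 < (2 : ℝ) := by
    have := Real.pi_lt_four
    linarith
  obtain ⟨m, l, hm, hl, hl0, -, -⟩ :=
    Pool.Agent.D0H93.RP.NF.rot_nf (E := curve a b) (F := F) hF hc2
  refine ⟨m, l, hm, hl, hl0, fun r g hg => ?_⟩
  obtain ⟨hreg, -, hR⟩ := Pool.Agent.D0H93.RP.NF.neron_nf hΔ hg
  rw [← Reg_eq] at hreg hR
  obtain ⟨hRpos, M₁, hM₁⟩ := Pool.Agent.D0H93.RP.NF.log_R hΔ hg
  have hfr : Module.finrank ℤ (Pt a b) = r := by
    have := Pool.Agent.TH942.card_basis hg
    rwa [Fintype.card_fin] at this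
  refine ⟨hfr, hreg, fun c hc => ?_⟩
  obtain ⟨m', l', hm', hl', -, ⟨M₂, hM₂⟩, hE⟩ :=
    Pool.Agent.D0H93.RP.NF.rot_nf (E := curve a b) (F := F) hF hc
  have e1 : m' = m := by
    rw [hm] at hm'
    exact_mod_cast hm'.symm
  have e2 : l' = l := by
    rw [hl] at hl'
    exact_mod_cast hl'.symm
  subst e1 e2
  have hlabs : 0 < |l'| := abs_pos.2 hl0
  have htors : (0 : ℝ) < tors a b := by
    have h3 : 0 < tors a b := Pool.Agent.D0H93.RP.NF.tors_pos hΔ
    exact_mod_cast h3
  have hV : 0 < V r := Pool.Agent.TH942.ballVol_pos r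
  have hpos : ∀ T, 0 < Prod a b c T := fun T => Real.exp_pos _
  -- the law
  have hE' : Tendsto (fun T : ℝ => Prod a b c T / T ^ m') atTop
      (𝓝 (Real.exp (-(m' * Lam c)) / |l'|)) := by
    refine hE.congr' ?_
    filter_upwards [eventually_gt_atTop 0] with T hT
    unfold Prod
    rw [S_eq a b c hT]
  have hlaw : Tendsto (fun T : ℝ => (R a b T : ℝ) ^ 2 / Prod a b c T * T ^ (m' - r)) atTop
      (𝓝 (V r ^ 2 * Real.exp (m' * Lam c) * ((tors a b : ℝ) ^ 2 / Reg g) * |l'|)) := by
    have h1 := hR.div hE' (by positivity)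
    have h2 : (tors a b : ℝ) ^ 2 * V r ^ 2 / Reg g / (Real.exp (-(m' * Lam c)) / |l'|) =
        V r ^ 2 * Real.exp (m' * Lam c) * ((tors a b : ℝ) ^ 2 / Reg g) * |l'| := by
      rw [Real.exp_neg]
      have := Real.exp_pos (m' * Lam c)
      field_simp
    have h3 : Tendsto (fun T : ℝ => (R a b T : ℝ) ^ 2 / T ^ r / (Prod a b c T / T ^ m')) atTop
        (𝓝 ((tors a b : ℝ) ^ 2 * V r ^ 2 / Reg g / (Real.exp (-(m' * Lam c)) / |l'|))) := h1
    rw [h2] at h3
    refine h3.congr' ?_
    filter_upwards [eventually_gt_atTop 0] with T hT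
    have h4 := (hpos T).ne'
    rw [zpow_sub₀ hT.ne', zpow_natCast]
    field_simp
  -- the defect
  set D : ℝ → ℝ := fun T => 2 * Real.log (R a b T) - S a b c T with hD
  have hdef : ∀ᶠ T : ℝ in atTop, |D T - (((r : ℤ) - m' : ℤ) : ℝ) * Real.log T| ≤ M₁ + M₂ := by
    filter_upwards [hM₁, hM₂, eventually_gt_atTop 0] with T h1 h2 h3
    rw [← S_eq a b c h3] at h2
    have h4 : D T - (((r : ℤ) - m' : ℤ) : ℝ) * Real.log T =
        (2 * Real.log (R a b T) - r * Real.log T) - (S a b c T - m' * Real.log T) := by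
      rw [hD]
      push_cast
      ring
    rw [h4]
    exact (abs_sub _ _).trans (add_le_add h1 h2)
  have hRe : ∀ᶠ T : ℝ in atTop, (R a b T : ℝ) ^ 2 = Real.exp (2 * Real.log (R a b T)) := by
    filter_upwards [hRpos] with T hT
    have hT' : (0 : ℝ) < R a b T := hT
    rw [mul_comm, Real.exp_mul, Real.exp_log hT']
    norm_cast
  have hup : ∀ᶠ T : ℝ in atTop, ∀ δ : ℝ, ((R a b T : ℝ) ^ 2 ≤ Prod a b c T * T ^ δ ↔
      D T ≤ δ * Real.log T) := by
    filter_upwards [hRe, eventually_gt_atTop 0] with T h1 h2 δ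
    rw [h1, Real.rpow_def_of_pos h2, Prod, ← Real.exp_add, Real.exp_le_exp, hD]
    constructor <;> intro h <;> simp only at * <;> linarith
  have hlo : ∀ᶠ T : ℝ in atTop, ∀ δ : ℝ, (Prod a b c T ≤ (R a b T : ℝ) ^ 2 * T ^ δ ↔
      - D T ≤ δ * Real.log T) := by
    filter_upwards [hRe, eventually_gt_atTop 0] with T h1 h2 δ
    rw [h1, Real.rpow_def_of_pos h2, Prod, ← Real.exp_add, Real.exp_le_exp, hD]
    constructor <;> intro h <;> simp only at * <;> linarith
  have hupB : ∀ᶠ T : ℝ in atTop, ∀ B : ℝ, 0 < B → ((R a b T : ℝ) ^ 2 ≤ B * Prod a b c T ↔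
      D T ≤ Real.log B) := by
    filter_upwards [hRe] with T h1 B hB
    rw [h1, Prod]
    nth_rewrite 1 [← Real.exp_log hB]
    rw [← Real.exp_add, Real.exp_le_exp, hD]
    constructor <;> intro h <;> simp only at * <;> linarith
  have hloB : ∀ᶠ T : ℝ in atTop, ∀ B : ℝ, 0 < B → (Prod a b c T ≤ B * (R a b T : ℝ) ^ 2 ↔
      - D T ≤ Real.log B) := by
    filter_upwards [hRe] with T h1 B hB
    rw [h1, Prod]
    nth_rewrite 1 [← Real.exp_log hB]
    rw [← Real.exp_add, Real.exp_le_exp, hD]
    constructor <;> intro h <;> simp only at * <;> linarith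
  have hBpos1 : ∀ B : ℝ, (∀ᶠ T : ℝ in atTop, (R a b T : ℝ) ^ 2 ≤ B * Prod a b c T) → 0 < B := by
    intro B hB
    obtain ⟨T, h1, h2⟩ := (hB.and hRpos).exists
    have h3 := hpos T
    have h4 : (0 : ℝ) < (R a b T : ℝ) ^ 2 := pow_pos h2 2
    by_contra h5
    push Not at h5
    nlinarith
  have hBpos2 : ∀ B : ℝ, (∀ᶠ T : ℝ in atTop, Prod a b c T ≤ B * (R a b T : ℝ) ^ 2) → 0 < B := by
    intro B hB
    obtain ⟨T, h1, h2⟩ := (hB.and hRpos).exists
    have h3 := hpos T
    have h4 : (0 : ℝ) < (R a b T : ℝ) ^ 2 := pow_pos h2 2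
    by_contra h5
    push Not at h5
    nlinarith
  have hL := Real.tendsto_log_atTop
  have t1 := Pool.Agent.D0H93.RP.NF.tfae_le hL hdef
  have t2 := Pool.Agent.D0H93.RP.NF.tfae_ge hL hdef
  have t3 := Pool.Agent.D0H93.RP.NF.tfae_eq hL hdef
  refine ⟨hlaw, ?_, ?_, ?_, ?_⟩
  · -- rank = order
    have u12 := t3.out 0 1
    have u13 := t3.out 0 2
    have e0 : m' = (r : ℤ) ↔ (r : ℤ) - m' = 0 := by omega
    tfae_have 1 ↔ 2 := by
      rw [e0, u12]
      constructor
      · rintro ⟨B, hB⟩
        refine ⟨Real.exp B, ?_⟩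
        filter_upwards [hB, hupB, hloB] with T h1 h2 h3
        rw [h2 _ (Real.exp_pos _), h3 _ (Real.exp_pos _), Real.log_exp]
        exact ⟨(le_abs_self _).trans h1, (neg_le_abs _).trans h1⟩
      · rintro ⟨B, hB⟩
        have hB0 := hBpos1 B (hB.mono fun T h => h.1)
        refine ⟨Real.log B, ?_⟩
        filter_upwards [hB, hupB, hloB] with T h1 h2 h3
        rw [h2 _ hB0, h3 _ hB0] at h1
        exact abs_le'.2 h1
    tfae_have 1 ↔ 3 := by
      rw [e0, u13]
      refine exists_congr fun δ => and_congr_right fun _ => ?_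
      refine frequently_congr ?_
      filter_upwards [hup, hlo] with T h2 h3
      rw [h2, h3]
      exact abs_le'
    tfae_finish
  · have u12 := t1.out 0 1
    have u13 := t1.out 0 2
    have e0 : (r : ℤ) ≤ m' ↔ (r : ℤ) - m' ≤ 0 := by omega
    tfae_have 1 ↔ 2 := by
      rw [e0, u12]
      constructor
      · rintro ⟨B, hB⟩
        refine ⟨Real.exp B, ?_⟩
        filter_upwards [hB, hupB] with T h1 h2
        rw [h2 _ (Real.exp_pos _), Real.log_exp]
        exact h1
      · rintro ⟨B, hB⟩
        have hB0 := hBpos1 B hB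
        refine ⟨Real.log B, ?_⟩
        filter_upwards [hB, hupB] with T h1 h2
        rwa [h2 _ hB0] at h1
    tfae_have 1 ↔ 3 := by
      rw [e0, u13]
      refine exists_congr fun δ => and_congr_right fun _ => ?_
      refine frequently_congr ?_
      filter_upwards [hup] with T h2
      rw [h2]
    tfae_finish
  · have u12 := t2.out 0 1
    have u13 := t2.out 0 2
    have e0 : m' ≤ (r : ℤ) ↔ 0 ≤ (r : ℤ) - m' := by omega
    tfae_have 1 ↔ 2 := by
      rw [e0, u12]
      constructor
      · rintro ⟨B, hB⟩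
        refine ⟨Real.exp B, ?_⟩
        filter_upwards [hB, hloB] with T h1 h2
        rw [h2 _ (Real.exp_pos _), Real.log_exp]
        exact h1
      · rintro ⟨B, hB⟩
        have hB0 := hBpos2 B hB
        refine ⟨Real.log B, ?_⟩
        filter_upwards [hB, hloB] with T h1 h2
        rwa [h2 _ hB0] at h1
    tfae_have 1 ↔ 3 := by
      rw [e0, u13]
      refine exists_congr fun δ => and_congr_right fun _ => ?_
      refine frequently_congr ?_
      filter_upwards [hlo] with T h2
      rw [h2]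
    tfae_finish
  · -- the leading coefficient
    intro M hM
    constructor
    · rintro ⟨h1, h2⟩
      rw [h1, sub_self] at hlaw
      simp only [zpow_zero, mul_one] at hlaw
      rw [h2] at hlaw
      have h3 : V r ^ 2 * Real.exp (((r : ℤ) : ℝ) * Lam c) * ((tors a b : ℝ) ^ 2 / Reg g) *
          (M * Reg g / (tors a b : ℝ) ^ 2) = V r ^ 2 * Real.exp (r * Lam c) * M := by
        push_cast
        field_simp
      rw [h3] at hlaw
      exact hlaw
    · intro h
      obtain ⟨h1, h2⟩ := Pool.Agent.D0H93.RP.NF.pow_unique (by positivity) (by positivity) hlaw h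
      have h3 : m' = (r : ℤ) := by omega
      refine ⟨h3, ?_⟩
      rw [h3] at h2
      push_cast at h2
      have h4 : V r ^ 2 * Real.exp (r * Lam c) * ((tors a b : ℝ) ^ 2 / Reg g * |l'|) =
          V r ^ 2 * Real.exp (r * Lam c) * M := by
        rw [← h2]
        ring
      have h5 := mul_left_cancel₀ (by positivity) h4
      rw [← h5]
      field_simp

end Pool.Agent.Results.MP_ae0bd0_nt.PointCountsOverNumberFields
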