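import Mathlib
import Pool.Agent.D0H93.RP.Law

/-!
# Rank minus order of vanishing, from the number of rational points of bounded height and the numbers
# of points modulo `p`

Let `C : y² = x³ + a x + b` be an elliptic curve over `ℚ`, `a, b ∈ ℤ`. We compare the solutions of one
equation, `B² = A³ + a A D⁴ + b D⁶`, in integers and modulo the primes:

* `R(X)` is one plus the number of the integral solutions `(A, B, D)` with `D ≥ 1`, `gcd(A, D) = 1`,
  `|A| ≤ X` and `D² ≤ X`, that is the number of the points of `C(ℚ)` for which the numerator and the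
  denominator of `x = A / D²` are at most `X`, with the point at infinity;
* `N_p` is one plus the number of the solutions of `y² = x³ + a x + b` modulo `p`, for the primes
  `p ∤ 2Δ`, and for a fixed number `c > π/2` (any) `E(X) = exp S(X)` is the product of the `N_p / p` with
  the weights `cos (c u) / Γ(1 + u)`, `u = log p / log X`, an absolutely convergent product for
  every `X > 1`; the weight of each single prime tends to `1` for `X → ∞`.

Let `F` be the entire continuation of the incomplete `L`-series of `C` and `m = ord_{s=1} F`. Then for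
EVERY curve, whatever the zeros of `F` and whatever the rank are,

  `log (R(X)² / E(X)) = (rank C(ℚ) - m) log log X + O(1)`  (`X ≥ 3`).

So the two sides of the rank form are compared without the rank, the `L`-function or heights of
generators: for the curve `C`

* the rank form `m = rank` holds iff `R(X)²` and `E(X)` are of the same order of magnitude,
* `rank ≤ m` iff `R(X)² = O(E(X))`, and `m ≤ rank` iff `E(X) = O(R(X)²)`.

By the integrality of the defect `rank - m`, estimates with the loss of a factor `(log X)^δ`, `δ < 1`,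
for arbitrarily large `X` are sufficient, in all three cases (in the first case both estimates for the
same `X`). For example, if there are arbitrarily large `X` for which the equation
`B² = A³ + a A D⁴ + b D⁶` has at most `(E(X) (log X)^(9/10))^(1/2)` solutions, then `rank ≤ m`.

Birch and Swinnerton-Dyer found their conjecture by comparing the products `∏_{p ≤ X} N_p / p` with the
rank. With the sharp cut-off such a comparison implies the Riemann hypothesis for `F` (Goldfeld).

Proof. The theorem of Mordell, Weil and Néron on the number of rational points (library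
`Pool.Agent.TH942`; denominators of `x` are squares), and the rotated law for the products (starting
result `AnalyticRankLaw`, library `Pool.Agent.W187`).
-/

set_option autoImplicit false

namespace Pool.Agent.Results.MP_696deb_nt.RationalAgainstLocalPoints

open Filter Topology Classical

/-- `R(X)`: one plus the number of the triples of integers `(A, B, D)` with
`B² = A³ + a A D⁴ + b D⁶`, `D ≥ 1`, `gcd(A, D) = 1`, `|A| ≤ X`, `D² ≤ X` -/
noncomputable def R (a b : ℤ) (X : ℝ) : ℝ :=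
  (Nat.card {v : ℤ × ℤ × ℤ // 1 ≤ v.2.2 ∧ IsCoprime v.1 v.2.2 ∧
    v.2.1 ^ 2 = v.1 ^ 3 + a * v.1 * v.2.2 ^ 4 + b * v.2.2 ^ 6 ∧
    (|v.1| : ℝ) ≤ X ∧ (v.2.2 : ℝ) ^ 2 ≤ X} : ℝ) + 1

/-- `N_p`: one plus the number of the solutions of `y² = x³ + a x + b` modulo `p` -/
noncomputable def numPoints (a b : ℤ) (p : ℕ) : ℕ :=
  Nat.card {q : ZMod p × ZMod p // q.2 ^ 2 = q.1 ^ 3 + (a : ZMod p) * q.1 + (b : ZMod p)} + 1

/-- `p` is a prime that does not divide `2 Δ`, `Δ = -4 a³ - 27 b²` -/
def Good (a b : ℤ) (p : ℕ) : Prop :=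
  p.Prime ∧ ¬ ((p : ℤ) ∣ 2 * (-4 * a ^ 3 - 27 * b ^ 2))

/-- the term at `p` of `S(X)` -/
noncomputable def term (a b : ℤ) (c X : ℝ) (p : ℕ) : ℝ :=
  if Good a b p then Real.cos (c * (Real.log p / Real.log X)) *
    Real.log ((numPoints a b p : ℝ) / p) / Real.Gamma (1 + Real.log p / Real.log X) else 0

/-- `S(X)`, the sum over `p ∤ 2 Δ` of `cos (c u) / Γ(1 + u) * log (N_p / p)`, `u = log p / log X` -/
noncomputable def S (a b : ℤ) (c X : ℝ) : ℝ := ∑' p : ℕ, term a b c X p

/-- `F` is an entire function which for `Re s > 3/2` is the incomplete `L`-series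
`∏_{p ∤ 2Δ} (1 - a_p p^{-s} + p^{1-2s})⁻¹`, `a_p = p + 1 - N_p`, of `y² = x³ + a x + b`. -/
def IsLSeries (a b : ℤ) (F : ℂ → ℂ) : Prop :=
  Differentiable ℂ F ∧ ∀ s : ℂ, (3 : ℝ) / 2 < s.re →
    HasProd (fun p : ℕ => if Good a b p then
      (1 - ((p : ℂ) + 1 - (numPoints a b p : ℂ)) * (p : ℂ) ^ (-s) + (p : ℂ) ^ (1 - 2 * s))⁻¹ else 1)
      (F s)

/-- the rank of the group of rational points of `y² = x³ + a x + b` -/
noncomputable def rank (a b : ℤ) : ℕ :=
  Module.finrank ℤ
    (WeierstrassCurve.Affine.Point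
      (WeierstrassCurve.toAffine
        ({ a₁ := 0, a₂ := 0, a₃ := 0, a₄ := (a : ℚ), a₆ := (b : ℚ) } : WeierstrassCurve ℚ)))

theorem log_eq {R S l δ : ℝ} (hR : 0 < R) (hl : 0 < l) :
    (R ^ 2 ≤ Real.exp S * l ^ δ ↔ 2 * Real.log R - S ≤ δ * Real.log l) ∧
    (Real.exp S ≤ R ^ 2 * l ^ δ ↔ - (δ * Real.log l) ≤ 2 * Real.log R - S) := by
  have h1 : R ^ 2 = Real.exp (2 * Real.log R) := by
    rw [mul_comm, Real.exp_mul, Real.exp_log hR]
    norm_cast
  have h2 : l ^ δ = Real.exp (δ * Real.log l) := by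
    rw [Real.rpow_def_of_pos hl, mul_comm]
  rw [h1, h2, ← Real.exp_add, ← Real.exp_add, Real.exp_le_exp, Real.exp_le_exp]
  constructor <;> constructor <;> intro h <;> linarith

theorem upper_iff {R S : ℝ → ℝ} (hR : ∀ X, 0 < R X) :
    (∃ B : ℝ, ∀ X : ℝ, 3 ≤ X → 2 * Real.log (R X) - S X ≤ B) ↔
      ∃ B : ℝ, ∀ X : ℝ, 3 ≤ X → R X ^ 2 ≤ B * Real.exp (S X) := by
  have h1 : ∀ X, R X ^ 2 = Real.exp (2 * Real.log (R X)) := fun X => by
    rw [mul_comm, Real.exp_mul, Real.exp_log (hR X)]
    norm_cast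
  constructor
  · rintro ⟨B, hB⟩
    refine ⟨Real.exp B, fun X hX => ?_⟩
    rw [h1, ← Real.exp_add, Real.exp_le_exp]
    have := hB X hX
    linarith
  · rintro ⟨B, hB⟩
    have hB0 : 0 < B := by
      have h2 := hB 3 le_rfl
      have h3 : 0 < R 3 ^ 2 := pow_pos (hR 3) 2
      have h4 := Real.exp_pos (S 3)
      by_contra h5
      push Not at h5
      nlinarith
    refine ⟨Real.log B, fun X hX => ?_⟩
    have h2 := hB X hX
    rw [h1] at h2
    have h3 := Real.log_le_log (Real.exp_pos _) h2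
    rw [Real.log_exp, Real.log_mul hB0.ne' (Real.exp_pos _).ne', Real.log_exp] at h3
    linarith

theorem lower_iff {R S : ℝ → ℝ} (hR : ∀ X, 0 < R X) :
    (∃ B : ℝ, ∀ X : ℝ, 3 ≤ X → B ≤ 2 * Real.log (R X) - S X) ↔
      ∃ B : ℝ, ∀ X : ℝ, 3 ≤ X → Real.exp (S X) ≤ B * R X ^ 2 := by
  have h1 : ∀ X, R X ^ 2 = Real.exp (2 * Real.log (R X)) := fun X => by
    rw [mul_comm, Real.exp_mul, Real.exp_log (hR X)]
    norm_cast
  constructor
  · rintro ⟨B, hB⟩
    refine ⟨Real.exp (-B), fun X hX => ?_⟩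
    rw [h1, ← Real.exp_add, Real.exp_le_exp]
    have := hB X hX
    linarith
  · rintro ⟨B, hB⟩
    have hB0 : 0 < B := by
      have h2 := hB 3 le_rfl
      have h3 : 0 < R 3 ^ 2 := pow_pos (hR 3) 2
      have h4 := Real.exp_pos (S 3)
      by_contra h5
      push Not at h5
      nlinarith
    refine ⟨- Real.log B, fun X hX => ?_⟩
    have h2 := hB X hX
    rw [h1] at h2
    have h3 := Real.log_le_log (Real.exp_pos _) h2
    rw [Real.log_exp, Real.log_mul hB0.ne' (Real.exp_pos _).ne', Real.log_exp] at h3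
    linarith

/-- **Rank minus order of vanishing, from rational points and points modulo `p`.** -/
theorem result (a b : ℤ) (hΔ : 4 * a ^ 3 + 27 * b ^ 2 ≠ 0) (F : ℂ → ℂ) (hF : IsLSeries a b F) :
    ∃ m : ℕ, analyticOrderAt F 1 = m ∧ ∀ c : ℝ, Real.pi / 2 < c →
      -- the law
      (∃ M : ℝ, ∀ X : ℝ, 3 ≤ X → |Real.log (R a b X ^ 2 / Real.exp (S a b c X)) -
        ((rank a b : ℝ) - m) * Real.log (Real.log X)| ≤ M) ∧
      -- `ord = rank`
      List.TFAE [analyticOrderAt F 1 = rank a b,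
        ∃ B : ℝ, ∀ X : ℝ, 3 ≤ X → R a b X ^ 2 ≤ B * Real.exp (S a b c X) ∧
          Real.exp (S a b c X) ≤ B * R a b X ^ 2,
        ∃ δ : ℝ, δ < 1 ∧ ∃ᶠ X : ℝ in atTop, R a b X ^ 2 ≤ Real.exp (S a b c X) * Real.log X ^ δ ∧
          Real.exp (S a b c X) ≤ R a b X ^ 2 * Real.log X ^ δ] ∧
      -- `rank ≤ ord`
      List.TFAE [(rank a b : ℕ∞) ≤ analyticOrderAt F 1,
        ∃ B : ℝ, ∀ X : ℝ, 3 ≤ X → R a b X ^ 2 ≤ B * Real.exp (S a b c X),
        ∃ δ : ℝ, δ < 1 ∧
          ∃ᶠ X : ℝ in atTop, R a b X ^ 2 ≤ Real.exp (S a b c X) * Real.log X ^ δ] ∧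
      -- `ord ≤ rank`
      List.TFAE [analyticOrderAt F 1 ≤ rank a b,
        ∃ B : ℝ, ∀ X : ℝ, 3 ≤ X → Real.exp (S a b c X) ≤ B * R a b X ^ 2,
        ∃ δ : ℝ, δ < 1 ∧
          ∃ᶠ X : ℝ in atTop, Real.exp (S a b c X) ≤ R a b X ^ 2 * Real.log X ^ δ] := by
  have hF' : Pool.Agent.W263.BSD.IsLSeries a b F := by
    refine ⟨hF.1, fun s hs => ?_⟩
    have h := hF.2 s hs
    have e : ∀ p : ℕ, (p : ℂ) + 1 - (numPoints a b p : ℂ) =
        (p : ℂ) - (Pool.Agent.W263.BSD.pointCount a b p : ℂ) := by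
      intro p
      unfold numPoints Pool.Agent.W263.BSD.pointCount
      push_cast
      ring
    simp only [e] at h
    exact h
  obtain ⟨m, hm⟩ := Pool.Agent.W189.ML.order_finite_all hF' 1
  have hSe : ∀ c X : ℝ, S a b c X = Pool.Agent.W187.UR.rotSum a b c X := by
    intro c X
    unfold S Pool.Agent.W187.UR.rotSum term
    refine tsum_congr fun p => ?_
    have e : (numPoints a b p : ℝ) = (Pool.Agent.W263.BSD.pointCount a b p : ℝ) + 1 := by
      unfold numPoints Pool.Agent.W263.BSD.pointCount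
      push_cast
      rfl
    rw [e]
    rfl
  have hRe : ∀ X : ℝ, R a b X = Pool.Agent.D0H93.RP.rc a b X := fun X => rfl
  have hrk : rank a b = Pool.Agent.D0H93.RP.rk a b := rfl
  have hR0 : ∀ X : ℝ, 0 < R a b X := fun X => by
    rw [hRe]
    have := Pool.Agent.D0H93.RP.one_le_rc a b X
    linarith
  refine ⟨m, hm, fun c hc => ?_⟩
  obtain ⟨M, hM⟩ := Pool.Agent.D0H93.RP.defect hΔ hF' hm hc
  rw [← hrk] at hM
  clear hrk
  generalize rank a b = r at hM ⊢
  have hM' : ∀ X : ℝ, 3 ≤ X → |(fun X => 2 * Real.log (R a b X) - S a b c X) X -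
      (((r : ℤ) - m : ℤ) : ℝ) * Real.log (Real.log X)| ≤ M := by
    intro X hX
    have := hM X hX
    simp only [hRe, hSe]
    push_cast
    exact this
  have hle := Pool.Agent.D0H93.RP.tfae_le hM'
  have hge := Pool.Agent.D0H93.RP.tfae_ge hM'
  rw [upper_iff hR0] at hle
  rw [lower_iff hR0] at hge
  have hfr1 : (∃ δ : ℝ, δ < 1 ∧ ∃ᶠ X : ℝ in atTop, 2 * Real.log (R a b X) - S a b c X ≤
      δ * Real.log (Real.log X)) ↔ ∃ δ : ℝ, δ < 1 ∧
      ∃ᶠ X : ℝ in atTop, R a b X ^ 2 ≤ Real.exp (S a b c X) * Real.log X ^ δ := by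
    refine exists_congr fun δ => and_congr_right fun _ => frequently_congr ?_
    filter_upwards [eventually_ge_atTop 3] with X hX
    have hl := Pool.Agent.D0H93.RP.one_lt_log hX
    exact (log_eq (hR0 X) (by linarith)).1.symm
  have hfr2 : (∃ δ : ℝ, δ < 1 ∧ ∃ᶠ X : ℝ in atTop, - (δ * Real.log (Real.log X)) ≤
      2 * Real.log (R a b X) - S a b c X) ↔ ∃ δ : ℝ, δ < 1 ∧
      ∃ᶠ X : ℝ in atTop, Real.exp (S a b c X) ≤ R a b X ^ 2 * Real.log X ^ δ := by
    refine exists_congr fun δ => and_congr_right fun _ => frequently_congr ?_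
    filter_upwards [eventually_ge_atTop 3] with X hX
    have hl := Pool.Agent.D0H93.RP.one_lt_log hX
    exact (log_eq (hR0 X) (by linarith)).2.symm
  rw [hfr1] at hle
  rw [hfr2] at hge
  have ele : ((r : ℤ) - m ≤ 0) ↔ (r : ℕ∞) ≤ analyticOrderAt F 1 := by
    rw [hm, Nat.cast_le]
    omega
  have ege : (0 ≤ (r : ℤ) - m) ↔ analyticOrderAt F 1 ≤ r := by
    rw [hm, Nat.cast_le]
    omega
  rw [ele] at hle
  rw [ege] at hge
  have l12 := hle.out 0 1
  have l13 := hle.out 0 2
  have g12 := hge.out 0 1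
  have g13 := hge.out 0 2
  refine ⟨⟨M, fun X hX => ?_⟩, ?_, hle, hge⟩
  · have e : Real.log (R a b X ^ 2 / Real.exp (S a b c X)) =
        2 * Real.log (R a b X) - S a b c X := by
      rw [Real.log_div (pow_pos (hR0 X) 2).ne' (Real.exp_pos _).ne', Real.log_exp, Real.log_pow]
      norm_num
    rw [e]
    have := hM' X hX
    push_cast at this
    exact this
  · tfae_have 1 → 2 := by
      intro h
      obtain ⟨B, hB⟩ := l12.1 h.ge
      obtain ⟨B', hB'⟩ := g12.1 h.le
      refine ⟨max B B', fun X hX => ⟨(hB X hX).trans ?_, (hB' X hX).trans ?_⟩⟩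
      · have := Real.exp_pos (S a b c X)
        have := le_max_left B B'
        gcongr
      · have := pow_pos (hR0 X) 2
        have := le_max_right B B'
        gcongr
    tfae_have 2 → 1 := by
      rintro ⟨B, hB⟩
      exact le_antisymm (g12.2 ⟨B, fun X hX => (hB X hX).2⟩) (l12.2 ⟨B, fun X hX => (hB X hX).1⟩)
    tfae_have 3 → 1 := by
      rintro ⟨δ, hδ, hfr⟩
      exact le_antisymm (g13.2 ⟨δ, hδ, hfr.mono fun X h => h.2⟩)
        (l13.2 ⟨δ, hδ, hfr.mono fun X h => h.1⟩)
    tfae_have 1 → 3 := by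
      intro h
      have h1 : r = m := by
        rw [hm] at h
        exact_mod_cast h.symm
      refine ⟨1 / 2, by norm_num, Eventually.frequently ?_⟩
      filter_upwards [eventually_ge_atTop 3,
        Pool.Agent.D0H93.RP.loglog_atTop.eventually_ge_atTop (2 * M)] with X hX hX2
      have hl := Pool.Agent.D0H93.RP.one_lt_log hX
      have h2 := abs_le.1 (hM' X hX)
      rw [h1, sub_self, Int.cast_zero, zero_mul, sub_zero] at h2
      obtain ⟨e1, e2⟩ := log_eq (δ := 1 / 2) (S := S a b c X) (hR0 X)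
        (show (0 : ℝ) < Real.log X by linarith)
      exact ⟨e1.2 (by linarith [h2.2]), e2.2 (by linarith [h2.1])⟩
    tfae_finish

end Pool.Agent.Results.MP_696deb_nt.RationalAgainstLocalPoints
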